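import Pool.Agent.V11286.IG.SymF
import Pool.Prelude.Def_F_b1b78ff3

/-! All split embedding problems with small kernels at the same time. -/

set_option autoImplicit false

namespace Pool.Agent.V11286.IG

open Pool.Agent.H391R2 Pool.Agent.H391R2.T4 IntermediateField Nfff32c05

/-- a set with `k` elements, without any structure -/
def Pt (k : ℕ) : Type := Fin k

instance (k : ℕ) : Finite (Pt k) := inferInstanceAs (Finite (Fin k))

instance finite_group (k : ℕ) : Finite (Group (Pt k)) := by
  refine Finite.of_injective (fun s : Group (Pt k) => fun a b : Pt k => s.mul a b) fun s t h => ?_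
  apply Group.ext
  funext a b
  exact congrFun (congrFun h a) b

instance finite_act {Γ A : Type} [Group Γ] [Finite Γ] [Group A] [Finite A] : Finite (Γ →* MulAut A) := by
  have h1 : Finite (MulAut A) := Finite.of_injective (fun f : MulAut A => fun a : A => f a) fun f g h => by
    apply MulEquiv.ext
    intro x
    exact congrFun h x
  exact Finite.of_injective (fun f : Γ →* MulAut A => fun a : Γ => f a) fun f g h => by
    apply MonoidHom.ext
    intro x
    exact congrFun h x

/-- the groups with at most `m` elements with an action of `Γ` -/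
def Idx (Γ : Type) [Group Γ] (m : ℕ) : Type := Σ k : Fin (m + 1), Σ _ : Group (Pt k), (Γ →* MulAut (Pt k))

instance (Γ : Type) [Group Γ] [Finite Γ] (m : ℕ) : Finite (Idx Γ m) := by
  unfold Idx
  infer_instance

instance {Γ : Type} [Group Γ] {m : ℕ} (j : Idx Γ m) : Group (Pt j.1) := j.2.1

/-- the action on the product -/
def bigAct (Γ : Type) [Group Γ] (m : ℕ) : Γ →* MulAut (∀ j : Idx Γ m, Pt j.1) where
  toFun g := MulEquiv.piCongrRight fun j => j.2.2 g
  map_one' := by
    apply MulEquiv.ext
    intro x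
    funext j
    change (j.2.2 1) (x j) = x j
    rw [map_one]
    rfl
  map_mul' a b := by
    apply MulEquiv.ext
    intro x
    funext j
    change (j.2.2 (a * b)) (x j) = (j.2.2 a) ((j.2.2 b) (x j))
    rw [map_mul]
    rfl

/-- every group with at most `m` elements with an action of `Γ` is a quotient of the product -/
theorem exists_proj {Γ : Type} [Group Γ] {m : ℕ} {G : Type} [Group G] [Finite G] (hG : Nat.card G ≤ m)
    (φ : Γ →* MulAut G) : ∃ f : (∀ j : Idx Γ m, Pt j.1) →* G, Function.Surjective f ∧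
      ∀ g x, f (bigAct Γ m g x) = φ g (f x) := by
  let e : Pt (Nat.card G) ≃ G := (Finite.equivFin G).symm
  let s : Group (Pt (Nat.card G)) := e.group
  let E : Pt (Nat.card G) ≃* G := e.mulEquiv
  let ψ : Γ →* MulAut (Pt (Nat.card G)) :=
    { toFun := fun g => (E.trans (φ g)).trans E.symm
      map_one' := by
        apply MulEquiv.ext
        intro x
        change E.symm (φ 1 (E x)) = x
        rw [map_one]
        exact E.symm_apply_apply x
      map_mul' := fun a b => by
        apply MulEquiv.ext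
        intro x
        change E.symm (φ (a * b) (E x)) = E.symm (φ a (E (E.symm (φ b (E x)))))
        rw [map_mul, MulEquiv.apply_symm_apply]
        rfl }
  let j : Idx Γ m := ⟨⟨Nat.card G, by omega⟩, s, ψ⟩
  let f : (∀ j : Idx Γ m, Pt j.1) →* G := E.toMonoidHom.comp (Pi.evalMonoidHom (fun j : Idx Γ m => Pt j.1) j)
  refine ⟨f, ?_, ?_⟩
  · intro y
    classical
    refine ⟨Function.update 1 j (E.symm y), ?_⟩
    change E ((Function.update (1 : ∀ j : Idx Γ m, Pt j.1) j (E.symm y)) j) = y
    rw [Function.update_self]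
    exact E.apply_symm_apply y
  · intro g x
    change E (ψ g (x j)) = φ g (E (x j))
    exact E.apply_symm_apply _

/-- quotients of solutions -/
theorem sol_trans {K L M : Type} [Field K] [Field L] [Field M] [Algebra K L] [Algebra K M] {E E' : Type}
    [Group E] [Group E'] (α : E →* (L ≃ₐ[K] L)) (α' : E' →* (L ≃ₐ[K] L)) (f : E →* E')
    (hf : Function.Surjective f) (hα : ∀ x, α' (f x) = α x) (h : SolOver K L E α M False) :
    SolOver K L E' α' M False := by
  obtain ⟨F, i1, i2, i3, i4, i5, i6, i7, i8, γ, hγ, -⟩ := h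
  refine sol_quot (F := F) α' (f.comp γ.toMonoidHom) (hf.comp γ.surjective) fun σ x => ?_
  change _ = algebraMap L F (α' (f (γ σ)) x)
  rw [hα]
  exact hγ σ x

/-- a surjection from the group of a solution gives a realization -/
theorem real_of_sol {K L M : Type} [Field K] [Field L] [Field M] [Algebra K L] [Algebra K M] {E G : Type}
    [Group E] [Group G] (α : E →* (L ≃ₐ[K] L)) (f : E →* G)
    (hf : Function.Surjective f) (h : SolOver K L E α M False) : IsRealizable M G := by
  obtain ⟨F, i1, i2, i3, i4, i5, i6, i7, i8, γ, hγ, -⟩ := h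
  let θ : (F ≃ₐ[M] F) →* G := f.comp γ.toMonoidHom
  have hθ : Function.Surjective θ := hf.comp γ.surjective
  let F' : IntermediateField M F := fixedField θ.ker
  have hgal : IsGalois M F' := IsGalois.of_fixedField_normal_subgroup θ.ker
  exact ⟨⟨⟨F', inferInstance, inferInstance, hgal,
    (QuotientGroup.quotientKerEquivOfSurjective θ hθ).symm.trans (IsGalois.normalAutEquivQuotient θ.ker)⟩⟩⟩

/-- **Simultaneous version.** -/
theorem split_sym (K L : Type) [Field K] [CharZero K] [Field L] [Algebra K L] [FiniteDimensional K L]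
    [IsGalois K L] (hK : HilbField K) (m : ℕ) :
    ∃ n₀ : ℕ, ∀ n ≥ n₀, ∃ (M : Type) (_ : Field M) (_ : Algebra K M) (_ : FiniteDimensional K M) (_ : IsGalois K M),
      Nonempty (Equiv.Perm (Fin n) ≃* (M ≃ₐ[K] M)) ∧
      (∀ (G : Type) [Group G] [Finite G] (φ : (L ≃ₐ[K] L) →* MulAut G), Nat.card G ≤ m →
        SolOver K L (G ⋊[φ] (L ≃ₐ[K] L)) SemidirectProduct.rightHom M False) ∧
      ∀ (G : Type) [Group G] [Finite G], Nat.card G ≤ m → IsRealizable M G := by
  let Γ := L ≃ₐ[K] L
  let B := ∀ j : Idx Γ m, Pt j.1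
  have hB : Finite B := inferInstance
  have hE : Finite (B ⋊[bigAct Γ m] Γ) := Finite.of_equiv _ SemidirectProduct.equivProd.symm
  obtain ⟨n₀, hn₀⟩ := weak_sym K L (B ⋊[bigAct Γ m] Γ) SemidirectProduct.rightHom hK
    (weakSol_of_split K L _ _ SemidirectProduct.inr fun ρ => rfl)
  refine ⟨n₀, fun n hn => ?_⟩
  obtain ⟨M, i1, i2, i3, i4, h1, h2⟩ := hn₀ n hn
  have key : ∀ (G : Type) [Group G] [Finite G] (φ : (L ≃ₐ[K] L) →* MulAut G), Nat.card G ≤ m →
      SolOver K L (G ⋊[φ] (L ≃ₐ[K] L)) SemidirectProduct.rightHom M False := by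
    intro G _ _ φ hG
    obtain ⟨f, hf1, hf2⟩ := exists_proj (Γ := Γ) hG φ
    let q : (B ⋊[bigAct Γ m] Γ) →* (G ⋊[φ] Γ) := SemidirectProduct.map f (MonoidHom.id Γ) (by
      intro g
      apply MonoidHom.ext
      intro x
      exact hf2 g x)
    refine sol_trans SemidirectProduct.rightHom SemidirectProduct.rightHom q ?_ (fun x => rfl) h2
    rintro ⟨y, g⟩
    obtain ⟨x, hx⟩ := hf1 y
    exact ⟨⟨x, g⟩, SemidirectProduct.ext hx rfl⟩
  refine ⟨M, i1, i2, i3, i4, h1, key, fun G _ _ hG => ?_⟩
  let q : (G ⋊[(1 : Γ →* MulAut G)] Γ) →* G := MonoidHom.mk' (fun z => z.left) (by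
    intro a b
    rfl)
  refine real_of_sol SemidirectProduct.rightHom q ?_ (key G 1 hG)
  intro y
  exact ⟨⟨y, 1⟩, rfl⟩

end Pool.Agent.V11286.IG
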