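import Pool.Agent.H391R2.T4.Fin

/-! From solutions of the symmetric fibre powers to solutions over extensions with a symmetric group. -/

set_option autoImplicit false

namespace Pool.Agent.V11286.IG

open Pool.Agent.H391R2 Pool.Agent.H391R2.T4 IntermediateField

/-- Quotients of the Galois group of a Galois extension of `M`. -/
theorem sol_quot {K L M F E : Type} [Field K] [Field L] [Field M] [Field F] [Algebra K L] [Algebra K M]
    [Algebra K F] [Algebra M F] [Algebra L F] [IsScalarTower K M F] [IsScalarTower K L F]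
    [FiniteDimensional M F] [IsGalois M F] [Group E] (α : E →* (L ≃ₐ[K] L)) (θ : (F ≃ₐ[M] F) →* E)
    (hθ : Function.Surjective θ)
    (hc : ∀ (σ : F ≃ₐ[M] F) (x : L), σ (algebraMap L F x) = algebraMap L F (α (θ σ) x)) :
    SolOver K L E α M False := by
  let F' : IntermediateField M F := fixedField θ.ker
  have hgal : IsGalois M F' := IsGalois.of_fixedField_normal_subgroup θ.ker
  have hLF : ∀ x : L, algebraMap L F x ∈ F' := by
    rintro x ⟨σ, hσ⟩
    change σ (algebraMap L F x) = _
    have h2 : θ σ = 1 := hσ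
    rw [hc, h2, map_one]
    rfl
  let aL : Algebra L F' := ((algebraMap L F).codRestrict F' hLF).toAlgebra
  let aK : Algebra K F' := ((algebraMap M F').comp (algebraMap K M)).toAlgebra
  have hT1 : IsScalarTower K M F' := IsScalarTower.of_algebraMap_eq fun x => rfl
  have hT2 : IsScalarTower K L F' := IsScalarTower.of_algebraMap_eq fun x => by
    apply Subtype.ext
    change algebraMap M F (algebraMap K M x) = algebraMap L F (algebraMap K L x)
    rw [← IsScalarTower.algebraMap_apply K M F, ← IsScalarTower.algebraMap_apply K L F]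
  let γ : (F' ≃ₐ[M] F') ≃* E :=
    (IsGalois.normalAutEquivQuotient θ.ker).symm.trans (QuotientGroup.quotientKerEquivOfSurjective θ hθ)
  have hγ : ∀ σ : F ≃ₐ[M] F, γ (AlgEquiv.restrictNormalHom F' σ) = θ σ := by
    intro σ
    have h1 : (IsGalois.normalAutEquivQuotient θ.ker).symm (AlgEquiv.restrictNormalHom F' σ) =
        QuotientGroup.mk σ := by
      rw [MulEquiv.symm_apply_eq]
      rfl
    change QuotientGroup.quotientKerEquivOfSurjective θ hθ
      ((IsGalois.normalAutEquivQuotient θ.ker).symm (AlgEquiv.restrictNormalHom F' σ)) = _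
    rw [h1]
    rfl
  refine ⟨F', inferInstance, inferInstance, aL, aK, hT1, hT2, inferInstance, hgal, γ, ?_, fun h => h.elim⟩
  intro σ' x
  obtain ⟨σ, rfl⟩ := AlgEquiv.restrictNormalHom_surjective (F := M) (K₁ := F') F σ'
  rw [hγ]
  apply Subtype.ext
  have h1 := AlgEquiv.restrictNormal_commutes σ F' (algebraMap L F' x)
  refine h1.trans ?_
  exact hc σ x

/-- The permutation of an element of the symmetric fibre power. -/
def permHom {Γ E : Type} [Group Γ] [Group E] (α : E →* Γ) (n : ℕ) : SymEP α n →* Equiv.Perm (Fin n) :=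
  (SemidirectProduct.rightHom.comp (MonoidHom.fst (Wr E n) Γ)).comp (SymEP α n).subtype

theorem permHom_surjective {Γ E : Type} [Group Γ] [Group E] (α : E →* Γ) (n : ℕ) :
    Function.Surjective (permHom α n) := by
  intro σ
  refine ⟨⟨(⟨1, σ⟩, 1), fun i => ?_⟩, rfl⟩
  change α 1 = 1
  exact map_one α

/-- **Main step.** -/
theorem sym_step {K L F E : Type} [Field K] [Field L] [Field F] [Algebra K L] [Algebra K F] [Algebra L F]
    [IsScalarTower K L F] [FiniteDimensional K F] [IsGalois K F] [Group E] (α : E →* (L ≃ₐ[K] L)) {n : ℕ}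
    (hn : 0 < n) (γ : (F ≃ₐ[K] F) ≃* SymEP α n)
    (hγ : ∀ (σ : F ≃ₐ[K] F) (x : L), σ (algebraMap L F x) = algebraMap L F (symProj α n (γ σ) x)) :
    ∃ (M : Type) (_ : Field M) (_ : Algebra K M) (_ : FiniteDimensional K M) (_ : IsGalois K M),
      Nonempty (Equiv.Perm (Fin n) ≃* (M ≃ₐ[K] M)) ∧ SolOver K L E α M False := by
  let π : (F ≃ₐ[K] F) →* Equiv.Perm (Fin n) := (permHom α n).comp γ.toMonoidHom
  have hπ : Function.Surjective π := (permHom_surjective α n).comp γ.surjective
  let M : IntermediateField K F := fixedField π.ker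
  have hgal : IsGalois K M := IsGalois.of_fixedField_normal_subgroup π.ker
  refine ⟨M, inferInstance, inferInstance, inferInstance, hgal,
    ⟨(QuotientGroup.quotientKerEquivOfSurjective π hπ).symm.trans (IsGalois.normalAutEquivQuotient π.ker)⟩, ?_⟩
  have hres : ∀ σ : F ≃ₐ[M] F, π (σ.restrictScalars K) = 1 := by
    intro σ
    have h1 : σ.restrictScalars K ∈ M.fixingSubgroup := by
      rw [IntermediateField.mem_fixingSubgroup_iff]
      intro x hx
      exact σ.commutes ⟨x, hx⟩
    rw [IntermediateField.fixingSubgroup_fixedField] at h1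
    exact h1
  have hright : ∀ σ : F ≃ₐ[M] F, (γ (σ.restrictScalars K)).1.1.right = 1 := fun σ => hres σ
  let θ : (F ≃ₐ[M] F) →* E := MonoidHom.mk' (fun σ => (γ (σ.restrictScalars K)).1.1.left ⟨0, hn⟩) (by
    intro σ τ
    have h1 : (σ * τ).restrictScalars K = σ.restrictScalars K * τ.restrictScalars K := rfl
    rw [h1, map_mul]
    change ((γ (σ.restrictScalars K)).1.1 * (γ (τ.restrictScalars K)).1.1).left ⟨0, hn⟩ = _
    rw [wr_mul_left, hright σ]
    rfl)
  have hθ : Function.Surjective θ := by
    intro e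
    let z : SymEP α n := ⟨(⟨fun _ => e, 1⟩, α e), fun i => rfl⟩
    have h1 : γ.symm z ∈ M.fixingSubgroup := by
      rw [IntermediateField.fixingSubgroup_fixedField, MonoidHom.mem_ker]
      change permHom α n (γ (γ.symm z)) = 1
      rw [MulEquiv.apply_symm_apply]
      rfl
    let σ : F ≃ₐ[M] F := IntermediateField.fixingSubgroupEquiv M ⟨γ.symm z, h1⟩
    have h2 : σ.restrictScalars K = γ.symm z := by
      apply AlgEquiv.ext
      intro x
      rfl
    refine ⟨σ, ?_⟩
    change (γ (σ.restrictScalars K)).1.1.left ⟨0, hn⟩ = e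
    rw [h2, MulEquiv.apply_symm_apply]
  have hT : IsScalarTower K M F := inferInstance
  refine sol_quot (F := F) α θ hθ fun σ x => ?_
  have h1 := hγ (σ.restrictScalars K) x
  have h2 : α (θ σ) = symProj α n (γ (σ.restrictScalars K)) := (γ (σ.restrictScalars K)).2 ⟨0, hn⟩
  rw [h2]
  exact h1

/-- Weakly solvable embedding problems over Hilbertian fields of characteristic zero. -/
theorem weak_sym (K L E : Type) [Field K] [CharZero K] [Field L] [Algebra K L] [FiniteDimensional K L]
    [IsGalois K L] [Group E] [Finite E] (α : E →* (L ≃ₐ[K] L)) (hK : HilbField K) (hw : WeakSol K L E α) :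
    ∃ n₀ : ℕ, ∀ n ≥ n₀, ∃ (M : Type) (_ : Field M) (_ : Algebra K M) (_ : FiniteDimensional K M) (_ : IsGalois K M),
      Nonempty (Equiv.Perm (Fin n) ≃* (M ≃ₐ[K] M)) ∧ SolOver K L E α M False := by
  obtain ⟨n₀, hn₀⟩ := hil_fin K L E α hK hw
  refine ⟨max n₀ 1, fun n hn => ?_⟩
  obtain ⟨⟨F, i1, i2, i3, i4, i5, i6, i7, i8, γ, hγ, -⟩, -⟩ := hn₀ n (le_of_max_le_left hn)
  have h42 : i4 = i2 := by
    apply Algebra.algebra_ext
    intro r
    exact @IsScalarTower.algebraMap_apply K K F _ _ _ (Algebra.id K) i2 i4 i5 r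
  subst h42
  exact sym_step α (lt_of_lt_of_le Nat.one_pos (le_of_max_le_right hn)) γ hγ

end Pool.Agent.V11286.IG
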