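import Pool.Agent.V11286.IG.SymB
import Pool.Agent.TH59.WX.UH

/-! Uniform versions over any base field, also regular ones. -/

set_option autoImplicit false

namespace Pool.Agent.V11286.IG

open Pool.Agent.H391R2 Pool.Agent.H391R2.T4 IntermediateField Nfff32c05

/-- Quotients of the Galois group of a Galois extension of `M`. -/
theorem sol_quot_T {K L M F E : Type} [Field K] [Field L] [Field M] [Field F] [Algebra K L] [Algebra K M]
    [Algebra K F] [Algebra M F] [Algebra L F] [IsScalarTower K M F] [IsScalarTower K L F]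
    [FiniteDimensional M F] [IsGalois M F] [Group E] (α : E →* (L ≃ₐ[K] L)) (θ : (F ≃ₐ[M] F) →* E)
    (hθ : Function.Surjective θ)
    (hc : ∀ (σ : F ≃ₐ[M] F) (x : L), σ (algebraMap L F x) = algebraMap L F (α (θ σ) x)) (reg : Prop)
    (hreg : reg → ∀ y : F, IsAlgebraic L y → y ∈ Set.range (algebraMap L F)) :
    SolOver K L E α M reg := by
  let F' : IntermediateField M F := fixedField θ.ker
  have hgal : IsGalois M F' := IsGalois.of_fixedField_normal_subgroup θ.ker
  have hLF : ∀ x : L, algebraMap L F x ∈ F' := by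
    rintro x ⟨σ, hσ⟩
    change σ (algebraMap L F x) = _
    have h2 : θ σ = 1 := hσ
    rw [hc, h2, map_one]
    rfl
  let aL : Algebra L F' := ((algebraMap L F).codRestrict F' hLF).toAlgebra
  let aK : Algebra K F' := ((algebraMap M F').comp (algebraMap K M)).toAlgebra
  have hT1 : IsScalarTower K M F' := IsScalarTower.of_algebraMap_eq fun x => rfl
  have hT2 : IsScalarTower K L F' := IsScalarTower.of_algebraMap_eq fun x => by
    apply Subtype.ext
    change algebraMap M F (algebraMap K M x) = algebraMap L F (algebraMap K L x)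
    rw [← IsScalarTower.algebraMap_apply K M F, ← IsScalarTower.algebraMap_apply K L F]
  have hT3 : IsScalarTower L F' F := IsScalarTower.of_algebraMap_eq fun x => rfl
  let γ : (F' ≃ₐ[M] F') ≃* E :=
    (IsGalois.normalAutEquivQuotient θ.ker).symm.trans (QuotientGroup.quotientKerEquivOfSurjective θ hθ)
  have hγ : ∀ σ : F ≃ₐ[M] F, γ (AlgEquiv.restrictNormalHom F' σ) = θ σ := by
    intro σ
    have h1 : (IsGalois.normalAutEquivQuotient θ.ker).symm (AlgEquiv.restrictNormalHom F' σ) =
        QuotientGroup.mk σ := by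
      rw [MulEquiv.symm_apply_eq]
      rfl
    change QuotientGroup.quotientKerEquivOfSurjective θ hθ
      ((IsGalois.normalAutEquivQuotient θ.ker).symm (AlgEquiv.restrictNormalHom F' σ)) = _
    rw [h1]
    rfl
  refine ⟨F', inferInstance, inferInstance, aL, aK, hT1, hT2, inferInstance, hgal, γ, ?_, fun hr y hy => ?_⟩
  · intro σ' x
    obtain ⟨σ, rfl⟩ := AlgEquiv.restrictNormalHom_surjective (F := M) (K₁ := F') F σ'
    rw [hγ]
    apply Subtype.ext
    have h1 := AlgEquiv.restrictNormal_commutes σ F' (algebraMap L F' x)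
    refine h1.trans ?_
    exact hc σ x
  · have h1 : IsAlgebraic L (y : F) := hy.algebraMap (A := F)
    obtain ⟨x, hx⟩ := hreg hr _ h1
    exact ⟨x, Subtype.ext hx⟩

/-- Quotients of solutions. -/
theorem sol_trans_T {K L M : Type} [Field K] [Field L] [Field M] [Algebra K L] [Algebra K M] {E E' : Type}
    [Group E] [Group E'] (α : E →* (L ≃ₐ[K] L)) (α' : E' →* (L ≃ₐ[K] L)) (f : E →* E')
    (hf : Function.Surjective f) (hα : ∀ x, α' (f x) = α x) {reg : Prop} (h : SolOver K L E α M reg) :
    SolOver K L E' α' M reg := by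
  obtain ⟨F, i1, i2, i3, i4, i5, i6, i7, i8, γ, hγ, hr⟩ := h
  refine sol_quot_T (F := F) α' (f.comp γ.toMonoidHom) (hf.comp γ.surjective) (fun σ x => ?_) reg hr
  change _ = algebraMap L F (α' (f (γ σ)) x)
  rw [hα]
  exact hγ σ x

/-- **Main step.** -/
theorem sol_sym {K L T E : Type} [Field K] [Field L] [Field T] [Algebra K L] [FiniteDimensional K L] [IsGalois K L]
    [Algebra K T] [Group E] (α : E →* (L ≃ₐ[K] L)) (hα : Function.Surjective α) {n : ℕ} (hn : 0 < n) {reg : Prop}
    (h : SolOver K L (SymEP α n) (symProj α n) T reg) :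
    ∃ (M : Type) (_ : Field M) (_ : Algebra T M) (_ : Algebra K M) (_ : IsScalarTower K T M)
      (_ : FiniteDimensional T M) (_ : IsGalois T M), Nonempty (Equiv.Perm (Fin n) ≃* (M ≃ₐ[T] M)) ∧
      (reg → ∀ y : M, IsAlgebraic K y → y ∈ Set.range (algebraMap K M)) ∧ SolOver K L E α M reg := by
  obtain ⟨F, i1, i2, i3, i4, i5, i6, i7, i8, γ, hγ, hreg⟩ := h
  let π : (F ≃ₐ[T] F) →* Equiv.Perm (Fin n) := (permHom α n).comp γ.toMonoidHom
  have hπ : Function.Surjective π := (permHom_surjective α n).comp γ.surjective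
  let M : IntermediateField T F := fixedField π.ker
  have hgal : IsGalois T M := IsGalois.of_fixedField_normal_subgroup π.ker
  let aK : Algebra K M := ((algebraMap T M).comp (algebraMap K T)).toAlgebra
  have hT1 : IsScalarTower K T M := IsScalarTower.of_algebraMap_eq fun x => rfl
  have hT2 : IsScalarTower K M F := IsScalarTower.of_algebraMap_eq fun x => by
    change algebraMap K F x = algebraMap T F (algebraMap K T x)
    exact IsScalarTower.algebraMap_apply K T F x
  have hres : ∀ σ : F ≃ₐ[M] F, π (σ.restrictScalars T) = 1 := by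
    intro σ
    have h1 : σ.restrictScalars T ∈ M.fixingSubgroup := by
      rw [IntermediateField.mem_fixingSubgroup_iff]
      intro x hx
      exact σ.commutes ⟨x, hx⟩
    rw [IntermediateField.fixingSubgroup_fixedField] at h1
    exact h1
  have hright : ∀ σ : F ≃ₐ[M] F, (γ (σ.restrictScalars T)).1.1.right = 1 := fun σ => hres σ
  let θ : (F ≃ₐ[M] F) →* E := MonoidHom.mk' (fun σ => (γ (σ.restrictScalars T)).1.1.left ⟨0, hn⟩) (by
    intro σ τ
    have h1 : (σ * τ).restrictScalars T = σ.restrictScalars T * τ.restrictScalars T := rfl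
    rw [h1, map_mul]
    change ((γ (σ.restrictScalars T)).1.1 * (γ (τ.restrictScalars T)).1.1).left ⟨0, hn⟩ = _
    rw [wr_mul_left, hright σ]
    rfl)
  have hθ : Function.Surjective θ := by
    intro e
    let z : SymEP α n := ⟨(⟨fun _ => e, 1⟩, α e), fun i => rfl⟩
    have h1 : γ.symm z ∈ M.fixingSubgroup := by
      rw [IntermediateField.fixingSubgroup_fixedField, MonoidHom.mem_ker]
      change permHom α n (γ (γ.symm z)) = 1
      rw [MulEquiv.apply_symm_apply]
      rfl
    let σ : F ≃ₐ[M] F := IntermediateField.fixingSubgroupEquiv M ⟨γ.symm z, h1⟩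
    have h2 : σ.restrictScalars T = γ.symm z := by
      apply AlgEquiv.ext
      intro x
      rfl
    refine ⟨σ, ?_⟩
    change (γ (σ.restrictScalars T)).1.1.left ⟨0, hn⟩ = e
    rw [h2, MulEquiv.apply_symm_apply]
  have hc : ∀ (σ : F ≃ₐ[M] F) (x : L), σ (algebraMap L F x) = algebraMap L F (α (θ σ) x) := by
    intro σ x
    have h1 := hγ (σ.restrictScalars T) x
    have h2 : α (θ σ) = symProj α n (γ (σ.restrictScalars T)) := (γ (σ.restrictScalars T)).2 ⟨0, hn⟩
    rw [h2]
    exact h1
  refine ⟨M, inferInstance, inferInstance, aK, hT1, inferInstance, hgal,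
    ⟨(QuotientGroup.quotientKerEquivOfSurjective π hπ).symm.trans (IsGalois.normalAutEquivQuotient π.ker)⟩,
    fun hr y hy => ?_, sol_quot_T (F := F) α θ hθ hc reg hreg⟩
  have h1 : IsAlgebraic K (y : F) := hy.algebraMap (A := F)
  obtain ⟨x, hx⟩ := hreg hr _ (h1.tower_top L)
  have hxbot : x ∈ (⊥ : IntermediateField K L) := by
    rw [IsGalois.mem_bot_iff_fixed]
    intro g
    obtain ⟨e, rfl⟩ := hα g
    obtain ⟨σ, rfl⟩ := hθ e
    apply (algebraMap L F).injective
    rw [← hc, hx]
    exact σ.commutes y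
  obtain ⟨z, hz⟩ := IntermediateField.mem_bot.1 hxbot
  refine ⟨z, ?_⟩
  apply Subtype.ext
  change algebraMap T F (algebraMap K T z) = y
  rw [← IsScalarTower.algebraMap_apply K T F, IsScalarTower.algebraMap_apply K L F, hz, hx]

/-- The bound of the starting library. -/
def bdk (k : ℕ) : ℕ := ((3 * k + 2).factorial) ^ 3

theorem bdk_pos (k : ℕ) : 0 < bdk k := pow_pos (Nat.factorial_pos _) _

/-- The bound for all groups with at most `m` elements with an action of `Γ`. -/
noncomputable def bdm (Γ : Type) [Group Γ] (m : ℕ) : ℕ := bdk (Nat.card (∀ j : Idx Γ m, Pt j.1))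

theorem split_weak {K L E : Type} [Field K] [Field L] [Algebra K L] [FiniteDimensional K L] [IsGalois K L] [Group E]
    (α : E →* (L ≃ₐ[K] L)) (s : (L ≃ₐ[K] L) →* E) (hs : ∀ ρ, α (s ρ) = ρ) : WeakSol K L E α := by
  refine ⟨L, inferInstance, inferInstance, inferInstance, inferInstance, inferInstance,
    inferInstance, s, fun ρ => ?_⟩
  rw [hs]
  apply AlgEquiv.ext
  intro x
  have h1 := AlgEquiv.restrictNormal_commutes ρ L x
  exact h1.symm

theorem weak_surj {K L E : Type} [Field K] [Field L] [Algebra K L] [FiniteDimensional K L] [IsGalois K L] [Group E]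
    (α : E →* (L ≃ₐ[K] L)) (hw : WeakSol K L E α) : Function.Surjective α := by
  obtain ⟨L', j1, j2, j3, j4, j5, j6, s, hs⟩ := hw
  intro g
  obtain ⟨ρ, hρ⟩ := AlgEquiv.restrictNormalHom_surjective (F := K) (K₁ := L) L' g
  exact ⟨s ρ, (hs ρ).trans hρ⟩

/-- **All split embedding problems with small kernels.** -/
theorem split_all (Γ : Type) [Group Γ] [Finite Γ] (m : ℕ) (K L T : Type) [Field K] [Field L] [Field T] [Algebra K L]
    [FiniteDimensional K L] [IsGalois K L] [Algebra K T] (reg : Prop) (e : Γ ≃* (L ≃ₐ[K] L))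
    (H : ∀ (E : Type) [Group E] [Finite E] (α : E →* (L ≃ₐ[K] L)), WeakSol K L E α → ∀ n : ℕ,
      bdk (Nat.card α.ker) ≤ n → SolOver K L (SymEP α n) (symProj α n) T reg) (n : ℕ) (hn : bdm Γ m ≤ n) :
    ∃ (M : Type) (_ : Field M) (_ : Algebra T M) (_ : Algebra K M) (_ : IsScalarTower K T M)
      (_ : FiniteDimensional T M) (_ : IsGalois T M), Nonempty (Equiv.Perm (Fin n) ≃* (M ≃ₐ[T] M)) ∧
      (reg → ∀ y : M, IsAlgebraic K y → y ∈ Set.range (algebraMap K M)) ∧
      ∀ (E : Type) [Group E] [Finite E] (α : E →* (L ≃ₐ[K] L)) (s : (L ≃ₐ[K] L) →* E), (∀ ρ, α (s ρ) = ρ) →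
        Nat.card α.ker ≤ m → SolOver K L E α M reg := by
  have hfd : Finite (L ≃ₐ[K] L) := inferInstance
  let B := ∀ j : Idx Γ m, Pt j.1
  let A : (L ≃ₐ[K] L) →* MulAut B := (bigAct Γ m).comp e.symm.toMonoidHom
  have hE : Finite (B ⋊[A] (L ≃ₐ[K] L)) := Finite.of_equiv _ SemidirectProduct.equivProd.symm
  let α₀ : (B ⋊[A] (L ≃ₐ[K] L)) →* (L ≃ₐ[K] L) := SemidirectProduct.rightHom
  have hw : WeakSol K L (B ⋊[A] (L ≃ₐ[K] L)) α₀ := split_weak α₀ SemidirectProduct.inr fun ρ => rfl
  have hker : Nat.card α₀.ker = Nat.card B := by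
    rw [← SemidirectProduct.range_inl_eq_ker_rightHom]
    exact (Nat.card_congr (MonoidHom.ofInjective (f := (SemidirectProduct.inl : B →* B ⋊[A] (L ≃ₐ[K] L)))
      SemidirectProduct.inl_injective).toEquiv).symm
  have hn0 : 0 < n := lt_of_lt_of_le (bdk_pos _) hn
  obtain ⟨M, i1, i2, i3, i4, i5, i6, h1, h2, h3⟩ := sol_sym α₀ SemidirectProduct.rightHom_surjective hn0
    (H _ α₀ hw n (by rw [hker]; exact hn))
  refine ⟨M, i1, i2, i3, i4, i5, i6, h1, h2, fun E _ _ α s hs hm => ?_⟩
  -- the action of the Galois group on the kernel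
  let φ : (L ≃ₐ[K] L) →* MulAut α.ker := MulAut.conjNormal.comp s
  obtain ⟨f, hf1, hf2⟩ := exists_proj (Γ := Γ) (m := m) hm (φ.comp e.toMonoidHom)
  let q : (B ⋊[A] (L ≃ₐ[K] L)) →* E := MonoidHom.mk' (fun z => (f z.left : E) * s z.right) (by
    intro a b
    change ((f (a.left * (A a.right) b.left) : α.ker) : E) * s (a.right * b.right) = _
    have h4 : f ((A a.right) b.left) = φ a.right (f b.left) := by
      have h5 := hf2 (e.symm a.right) b.left
      rw [MonoidHom.comp_apply] at h5
      change f ((A a.right) b.left) = φ (e (e.symm a.right)) (f b.left) at h5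
      rwa [MulEquiv.apply_symm_apply] at h5
    rw [map_mul, h4, map_mul, Subgroup.coe_mul]
    have h6 : ((φ a.right (f b.left) : α.ker) : E) = s a.right * (f b.left : E) * (s a.right)⁻¹ :=
      MulAut.conjNormal_apply _ _
    rw [h6]
    group)
  refine sol_trans_T α₀ α q ?_ (fun z => ?_) h3
  · intro x
    have hx : x * (s (α x))⁻¹ ∈ α.ker := by
      rw [MonoidHom.mem_ker, map_mul, map_inv, hs, mul_inv_cancel]
    obtain ⟨b, hb⟩ := hf1 ⟨_, hx⟩
    refine ⟨⟨b, α x⟩, ?_⟩
    change (f b : E) * s (α x) = x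
    rw [hb]
    change x * (s (α x))⁻¹ * s (α x) = x
    rw [inv_mul_cancel_right]
  · change α ((f z.left : E) * s z.right) = z.right
    rw [map_mul, hs, (f z.left).2, one_mul]

end Pool.Agent.V11286.IG
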