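import Pool.Agent.V11286.IG.SymT

/-! Uniform versions: the final forms. -/

set_option autoImplicit false

namespace Pool.Agent.V11286.IG

open Pool.Agent.H391R2 Pool.Agent.H391R2.T4 IntermediateField Nfff32c05

theorem unify {K M : Type} [Field K] [Field M] (a1 a2 : Algebra K M)
    (h : @IsScalarTower K K M _ a1.toSMul a2.toSMul) : a2 = a1 := by
  apply Algebra.algebra_ext
  intro r
  exact @IsScalarTower.algebraMap_apply K K M _ _ _ (Algebra.id K) a1 a2 h r

/-- Hilbertian fields, split problems with small kernels. -/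
theorem hilb_split (Γ : Type) [Group Γ] [Finite Γ] (m : ℕ) (K L : Type) [Field K] [Field L] [Algebra K L]
    [FiniteDimensional K L] [IsGalois K L] (hK : HilbField K) (e : Γ ≃* (L ≃ₐ[K] L)) (n : ℕ) (hn : bdm Γ m ≤ n) :
    ∃ (M : Type) (_ : Field M) (_ : Algebra K M) (_ : IsGalois K M), Nonempty (Equiv.Perm (Fin n) ≃* (M ≃ₐ[K] M)) ∧
      (∀ (E : Type) [Group E] [Finite E] (α : E →* (L ≃ₐ[K] L)) (s : (L ≃ₐ[K] L) →* E), (∀ ρ, α (s ρ) = ρ) →
        Nat.card α.ker ≤ m → SolOver K L E α M False) ∧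
      ∀ (G : Type) [Group G] [Finite G], Nat.card G ≤ m → IsRealizable M G := by
  obtain ⟨M, i1, i2, i3, i4, i5, i6, h1, -, h2⟩ := split_all Γ m K L K False e
    (fun E _ _ α hw n hn => (Pool.Agent.TH59.WX.hil_fin_unif K L E α hK hw n hn).1) n hn
  obtain rfl := unify i2 i3 i4
  refine ⟨M, i1, i3, i6, h1, h2, fun G _ _ hG => ?_⟩
  let α : G × (L ≃ₐ[K] L) →* (L ≃ₐ[K] L) := MonoidHom.snd G (L ≃ₐ[K] L)
  have hker : Nat.card α.ker = Nat.card G := by
    refine Nat.card_congr ⟨fun z => z.1.1, fun g => ⟨(g, 1), rfl⟩, fun z => ?_, fun g => rfl⟩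
    apply Subtype.ext
    apply Prod.ext
    · rfl
    · exact (z.2 : z.1.2 = 1).symm
  exact real_of_sol α (MonoidHom.fst G (L ≃ₐ[K] L)) (fun g => ⟨(g, 1), rfl⟩)
    (h2 _ α (MonoidHom.inr G (L ≃ₐ[K] L)) (fun ρ => rfl) (by rw [hker]; exact hG))

/-- Hilbertian fields, weakly solvable problems. -/
theorem hilb_weak (K L E : Type) [Field K] [Field L] [Algebra K L] [FiniteDimensional K L] [IsGalois K L] [Group E]
    [Finite E] (α : E →* (L ≃ₐ[K] L)) (hK : HilbField K) (hw : WeakSol K L E α) (n : ℕ)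
    (hn : bdk (Nat.card α.ker) ≤ n) :
    ∃ (M : Type) (_ : Field M) (_ : Algebra K M) (_ : IsGalois K M), Nonempty (Equiv.Perm (Fin n) ≃* (M ≃ₐ[K] M)) ∧
      SolOver K L E α M False := by
  obtain ⟨M, i1, i2, i3, i4, i5, i6, h1, -, h2⟩ := sol_sym α (weak_surj α hw) (lt_of_lt_of_le (bdk_pos _) hn)
    (Pool.Agent.TH59.WX.hil_fin_unif K L E α hK hw n hn).1
  obtain rfl := unify i2 i3 i4
  exact ⟨M, i1, i3, i6, h1, h2⟩

/-- Regular solutions over any field, split problems with small kernels. -/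
theorem reg_split (Γ : Type) [Group Γ] [Finite Γ] (m : ℕ) (K L : Type) [Field K] [Field L] [Algebra K L]
    [FiniteDimensional K L] [IsGalois K L] (e : Γ ≃* (L ≃ₐ[K] L)) (n : ℕ) (hn : bdm Γ m ≤ n) :
    ∃ (M : Type) (_ : Field M) (_ : Algebra (RatFunc K) M) (_ : Algebra K M) (_ : IsScalarTower K (RatFunc K) M)
      (_ : IsGalois (RatFunc K) M), Nonempty (Equiv.Perm (Fin n) ≃* (M ≃ₐ[RatFunc K] M)) ∧
      (∀ y : M, IsAlgebraic K y → y ∈ Set.range (algebraMap K M)) ∧
      ∀ (E : Type) [Group E] [Finite E] (α : E →* (L ≃ₐ[K] L)) (s : (L ≃ₐ[K] L) →* E), (∀ ρ, α (s ρ) = ρ) →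
        Nat.card α.ker ≤ m → SolOver K L E α M True := by
  obtain ⟨M, i1, i2, i3, i4, i5, i6, h1, h2, h3⟩ := split_all Γ m K L (RatFunc K) True e
    (fun E _ _ α hw n hn => (Pool.Agent.TH59.WX.reg_fin_unif K L E α hw n hn).1) n hn
  exact ⟨M, i1, i2, i3, i4, i6, h1, h2 trivial, h3⟩

/-- Regular solutions over any field, weakly solvable problems. -/
theorem reg_weak (K L E : Type) [Field K] [Field L] [Algebra K L] [FiniteDimensional K L] [IsGalois K L] [Group E]
    [Finite E] (α : E →* (L ≃ₐ[K] L)) (hw : WeakSol K L E α) (n : ℕ) (hn : bdk (Nat.card α.ker) ≤ n) :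
    ∃ (M : Type) (_ : Field M) (_ : Algebra (RatFunc K) M) (_ : Algebra K M) (_ : IsScalarTower K (RatFunc K) M)
      (_ : IsGalois (RatFunc K) M), Nonempty (Equiv.Perm (Fin n) ≃* (M ≃ₐ[RatFunc K] M)) ∧
      (∀ y : M, IsAlgebraic K y → y ∈ Set.range (algebraMap K M)) ∧ SolOver K L E α M True := by
  obtain ⟨M, i1, i2, i3, i4, i5, i6, h1, h2, h3⟩ := sol_sym α (weak_surj α hw) (lt_of_lt_of_le (bdk_pos _) hn)
    (Pool.Agent.TH59.WX.reg_fin_unif K L E α hw n hn).1
  exact ⟨M, i1, i2, i3, i4, i6, h1, h2 trivial, h3⟩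

/-- The group `G` occurs regularly over the extension `M` of the field `K`: there is a finite Galois extension `F` of `M`
with Galois group isomorphic to `G` in which `K` is algebraically closed. -/
def OccursReg (K M G : Type) [Field K] [Field M] [Algebra K M] [Group G] : Prop :=
  ∃ (F : Type) (_ : Field F) (_ : Algebra M F) (_ : Algebra K F) (_ : IsScalarTower K M F),
    FiniteDimensional M F ∧ IsGalois M F ∧ Nonempty ((F ≃ₐ[M] F) ≃* G) ∧
    ∀ y : F, IsAlgebraic K y → y ∈ Set.range (algebraMap K F)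

/-- All groups with at most `m` elements occur regularly over one symmetric extension. -/
theorem reg_groups (m : ℕ) (K : Type) [Field K] (n : ℕ) (hn : bdm (Equiv.Perm (Fin 1)) m ≤ n) :
    ∃ (M : Type) (_ : Field M) (_ : Algebra (RatFunc K) M) (_ : Algebra K M) (_ : IsScalarTower K (RatFunc K) M)
      (_ : IsGalois (RatFunc K) M), Nonempty (Equiv.Perm (Fin n) ≃* (M ≃ₐ[RatFunc K] M)) ∧
      (∀ y : M, IsAlgebraic K y → y ∈ Set.range (algebraMap K M)) ∧
      ∀ (G : Type) [Group G] [Finite G], Nat.card G ≤ m → OccursReg K M G := by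
  have hsub : ∀ a b : (K ≃ₐ[K] K), a = b := fun a b => Subsingleton.elim a b
  let e : Equiv.Perm (Fin 1) ≃* (K ≃ₐ[K] K) :=
    { toFun := fun _ => 1
      invFun := fun _ => 1
      left_inv := fun _ => Subsingleton.elim _ _
      right_inv := fun _ => hsub _ _
      map_mul' := fun _ _ => hsub _ _ }
  obtain ⟨M, i1, i2, i3, i4, i5, h1, h2, h3⟩ := reg_split (Equiv.Perm (Fin 1)) m K K e n hn
  refine ⟨M, i1, i2, i3, i4, i5, h1, h2, fun G _ _ hG => ?_⟩
  let α : G →* (K ≃ₐ[K] K) := 1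
  have hker : Nat.card α.ker ≤ m := by
    refine le_trans ?_ hG
    exact Nat.card_le_card_of_injective (fun z : α.ker => z.1) Subtype.val_injective
  obtain ⟨F, j1, j2, j3, j4, j5, j6, j7, j8, γ, -, hr⟩ := h3 G α 1 (fun ρ => hsub _ _) hker
  obtain rfl := unify j3 j4 j6
  exact ⟨F, j1, j2, j4, j5, j7, j8, ⟨γ⟩, hr trivial⟩

end Pool.Agent.V11286.IG
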